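import Mathlib

set_option autoImplicit false

/-!
# The algebra of continuous functions on a ball of `ℂ × ℝ` holomorphic on the horizontal slices
-/

namespace Pool.Agent.W70.BA

open Set Filter Topology

/-- the closed unit ball of `ℂ × ℝ` -/
def X : Set (ℂ × ℝ) := {p | ‖p.1‖ ^ 2 + p.2 ^ 2 ≤ 1}

/-- the unit sphere of `ℂ × ℝ` -/
def S : Set (ℂ × ℝ) := {p | ‖p.1‖ ^ 2 + p.2 ^ 2 = 1}

lemma S_sub_X : S ⊆ X := fun _ hp => le_of_eq hp

lemma norm_le_of_mem {p : ℂ × ℝ} (hp : p ∈ X) : ‖p‖ ≤ 1 := by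
  have h : ‖p.1‖ ^ 2 + p.2 ^ 2 ≤ 1 := hp
  rw [Prod.norm_def]
  apply max_le
  · nlinarith [norm_nonneg p.1, sq_nonneg p.2]
  · rw [Real.norm_eq_abs, abs_le]
    constructor
    · nlinarith [sq_nonneg ‖p.1‖]
    · nlinarith [sq_nonneg ‖p.1‖]

lemma continuous_q : Continuous fun p : ℂ × ℝ => ‖p.1‖ ^ 2 + p.2 ^ 2 := by fun_prop

lemma isCompact_X : IsCompact X := by
  apply Metric.isCompact_of_isClosed_isBounded
  · exact isClosed_le continuous_q continuous_const
  · refine (Metric.isBounded_closedBall (x := (0 : ℂ × ℝ)) (r := 1)).subset ?_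
    intro p hp
    rw [mem_closedBall_zero_iff]
    exact norm_le_of_mem hp

lemma isCompact_S : IsCompact S := by
  apply isCompact_X.of_isClosed_subset _ S_sub_X
  exact isClosed_eq continuous_q continuous_const

instance : CompactSpace X := isCompact_iff_compactSpace.mp isCompact_X
instance : CompactSpace S := isCompact_iff_compactSpace.mp isCompact_S
instance : Nonempty X := ⟨⟨(0, 0), by simp [X]⟩⟩

/-- the open slices of the ball -/
def U (b : ℝ) : Set ℂ := {z | ‖z‖ ^ 2 + b ^ 2 < 1}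

lemma isOpen_U (b : ℝ) : IsOpen (U b) :=
  isOpen_lt (by fun_prop) continuous_const

lemma mem_X_of_U {b : ℝ} {z : ℂ} (hz : z ∈ U b) : (z, b) ∈ X := le_of_lt (show ‖z‖ ^ 2 + b ^ 2 < 1 from hz)

lemma closure_U (b : ℝ) : closure (U b) ⊆ {z | (z, b) ∈ X} := by
  have hcl : IsClosed {z : ℂ | ‖z‖ ^ 2 + b ^ 2 ≤ 1} :=
    isClosed_le (by fun_prop) continuous_const
  exact closure_minimal (fun z hz => mem_X_of_U hz) hcl

lemma frontier_U (b : ℝ) : frontier (U b) ⊆ {z | (z, b) ∈ S} := by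
  intro z hz
  rw [(isOpen_U b).frontier_eq] at hz
  have h1 : ‖z‖ ^ 2 + b ^ 2 ≤ 1 := closure_U b hz.1
  have h2 : ¬ ‖z‖ ^ 2 + b ^ 2 < 1 := hz.2
  exact le_antisymm h1 (not_lt.mp h2)

lemma bounded_U (b : ℝ) : Bornology.IsBounded (U b) := by
  refine (Metric.isBounded_closedBall (x := (0 : ℂ)) (r := 1)).subset ?_
  intro z hz
  have h : ‖z‖ ^ 2 + b ^ 2 < 1 := hz
  rw [mem_closedBall_zero_iff]
  nlinarith [norm_nonneg z, sq_nonneg b]

open Classical in
/-- the slice of `f` at height `b` -/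
noncomputable def sl (f : C(X, ℂ)) (b : ℝ) (z : ℂ) : ℂ :=
  if h : (z, b) ∈ X then f ⟨(z, b), h⟩ else 0

lemma sl_apply (f : C(X, ℂ)) (b : ℝ) (z : ℂ) (h : (z, b) ∈ X) : sl f b z = f ⟨(z, b), h⟩ :=
  dif_pos h

lemma sl_continuousOn (f : C(X, ℂ)) (b : ℝ) : ContinuousOn (sl f b) {z | (z, b) ∈ X} := by
  rw [continuousOn_iff_continuous_domRestrict]
  have h1 : ({z | (z, b) ∈ X}.domRestrict (sl f b)) =
      fun z : {z : ℂ | (z, b) ∈ X} => f ⟨(z.1, b), z.2⟩ := by
    funext z
    exact sl_apply f b z.1 z.2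
  rw [h1]
  exact f.continuous.comp (by fun_prop)

lemma sl_mul (f g : C(X, ℂ)) (b : ℝ) : sl (f * g) b = fun z => sl f b z * sl g b z := by
  funext z
  by_cases h : (z, b) ∈ X
  · rw [sl_apply _ _ _ h, sl_apply _ _ _ h, sl_apply _ _ _ h]
    rfl
  · unfold sl
    rw [dif_neg h, dif_neg h, dif_neg h, mul_zero]

lemma sl_add (f g : C(X, ℂ)) (b : ℝ) : sl (f + g) b = fun z => sl f b z + sl g b z := by
  funext z
  by_cases h : (z, b) ∈ X
  · rw [sl_apply _ _ _ h, sl_apply _ _ _ h, sl_apply _ _ _ h]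
    rfl
  · unfold sl
    rw [dif_neg h, dif_neg h, dif_neg h, add_zero]

/-- the algebra of the continuous functions on the ball which are holomorphic on the slices -/
noncomputable def A : Subalgebra ℂ C(X, ℂ) where
  carrier := {f | ∀ b, DifferentiableOn ℂ (sl f b) (U b)}
  mul_mem' := by
    intro f g hf hg b
    rw [sl_mul]
    exact (hf b).mul (hg b)
  add_mem' := by
    intro f g hf hg b
    rw [sl_add]
    exact (hf b).add (hg b)
  algebraMap_mem' := by
    intro c b
    refine (differentiableOn_const c).congr ?_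
    intro z hz
    rw [sl_apply _ _ _ (mem_X_of_U hz)]
    rfl

lemma mem_A (f : C(X, ℂ)) : f ∈ A ↔ ∀ b, DifferentiableOn ℂ (sl f b) (U b) := Iff.rfl

lemma isClosed_A : IsClosed (A : Set C(X, ℂ)) := by
  apply IsSeqClosed.isClosed
  intro F f hF hlim b
  have hunif : TendstoUniformlyOn (fun n => sl (F n) b) (sl f b) atTop (U b) := by
    rw [Metric.tendstoUniformlyOn_iff]
    intro ε hε
    rw [Metric.tendsto_nhds] at hlim
    filter_upwards [hlim ε hε] with n hn z hz
    have h1 := sl_apply f b z (mem_X_of_U hz)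
    have h2 := sl_apply (F n) b z (mem_X_of_U hz)
    have h4 : dist ((F n) ⟨(z, b), mem_X_of_U hz⟩) (f ⟨(z, b), mem_X_of_U hz⟩) ≤ dist (F n) f :=
      ContinuousMap.dist_apply_le_dist _
    rw [h1, h2, dist_comm]
    exact lt_of_le_of_lt h4 hn
  exact hunif.tendstoLocallyUniformlyOn.differentiableOn
    (Eventually.of_forall fun n => hF n b) (isOpen_U b)

noncomputable instance : NormedCommRing A := inferInstance
noncomputable instance : NormedAlgebra ℂ A := inferInstance
instance : CompleteSpace A := isClosed_A.completeSpace_coe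

end Pool.Agent.W70.BA
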