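import Mathlib
import Pool.Agent.W70.BA.Ball

set_option autoImplicit false

/-!
# Zeros on the sphere, peak functions, and the evaluation at the centre
-/

namespace Pool.Agent.W70.BA

open Set Filter Topology ComplexConjugate

lemma diffCont (f : A) (b : ℝ) : DiffContOnCl ℂ (sl f.1 b) (U b) :=
  ⟨f.2 b, (sl_continuousOn f.1 b).mono (closure_U b)⟩

/-- the maximum principle on the slices -/
lemma max_principle (f : A) (C : ℝ) (hC : ∀ x : X, (x : ℂ × ℝ) ∈ S → ‖f.1 x‖ ≤ C) (x : X) :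
    ‖f.1 x‖ ≤ C := by
  obtain ⟨⟨z, b⟩, hx⟩ := x
  by_cases h : (z, b) ∈ S
  · exact hC _ h
  · have hz : z ∈ U b := lt_of_le_of_ne hx h
    have key := Complex.norm_le_of_forall_mem_frontier_norm_le (bounded_U b) (diffCont f b)
      (C := C) ?_ (subset_closure hz)
    · rwa [sl_apply _ _ _ hx] at key
    · intro w hw
      have hwS : (w, b) ∈ S := frontier_U b hw
      rw [sl_apply _ _ _ (S_sub_X hwS)]
      exact hC _ hwS

/-- functions without zeros are invertible -/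
lemma isUnit_of_ne (f : A) (hf : ∀ x, f.1 x ≠ 0) : IsUnit f := by
  let g : C(X, ℂ) := ⟨fun x => (f.1 x)⁻¹, f.1.continuous.inv₀ hf⟩
  have hg : g ∈ A := by
    intro b
    have h1 : DifferentiableOn ℂ (fun z => (sl f.1 b z)⁻¹) (U b) := by
      apply (f.2 b).inv
      intro z hz
      rw [sl_apply _ _ _ (mem_X_of_U hz)]
      exact hf _
    refine h1.congr ?_
    intro z hz
    rw [sl_apply _ _ _ (mem_X_of_U hz), sl_apply _ _ _ (mem_X_of_U hz)]
    rfl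
  refine IsUnit.of_mul_eq_one ⟨g, hg⟩ ?_
  apply Subtype.ext
  apply ContinuousMap.ext
  intro x
  exact mul_inv_cancel₀ (hf x)

/-- a function with a zero has a zero on the sphere -/
lemma exists_zero_S (f : A) (x₀ : X) (h₀ : f.1 x₀ = 0) :
    ∃ x : X, (x : ℂ × ℝ) ∈ S ∧ f.1 x = 0 := by
  by_contra hcon
  push Not at hcon
  have hScl : IsClosed {x : X | (x : ℂ × ℝ) ∈ S} :=
    (isClosed_eq continuous_q continuous_const).preimage continuous_subtype_val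
  obtain ⟨δ, hδ, hδS⟩ : ∃ δ : ℝ, 0 < δ ∧ ∀ x : X, (x : ℂ × ℝ) ∈ S → δ ≤ ‖f.1 x‖ := by
    obtain ⟨s, hs, hmin⟩ := hScl.isCompact.exists_isMinOn
      ⟨⟨(1, 0), by simp [X]⟩, by simp [S]⟩ (f.1.continuous.norm.continuousOn)
    exact ⟨‖f.1 s‖, norm_pos_iff.mpr (hcon s hs), fun x hx => hmin hx⟩
  have hKcl : IsClosed {x : X | f.1 x = 0} := isClosed_eq f.1.continuous continuous_const
  obtain ⟨xs, hxs, hmax⟩ := hKcl.isCompact.exists_isMaxOn ⟨x₀, h₀⟩
    ((continuous_snd.comp continuous_subtype_val).continuousOn)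
  have hxs0 : f.1 xs = 0 := hxs
  obtain ⟨⟨z, b⟩, hx⟩ := xs
  have hnS : (z, b) ∉ S := fun h => hcon _ h hxs0
  have hz : z ∈ U b := lt_of_le_of_ne hx hnS
  -- the bound above
  have hab : ∀ t : ℝ, b < t → ∀ w, w ∈ U t → δ ≤ ‖sl f.1 t w‖ := by
    intro t ht w hw
    have hne : ∀ v, (v, t) ∈ X → sl f.1 t v ≠ 0 := by
      intro v hv h0
      rw [sl_apply _ _ _ hv] at h0
      have h1 : t ≤ b := hmax (show (⟨(v, t), hv⟩ : X) ∈ {x : X | f.1 x = 0} from h0)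
      linarith
    have hinv : DiffContOnCl ℂ (sl f.1 t)⁻¹ (U t) :=
      (diffCont f t).inv fun v hv => hne v (closure_U t hv)
    have key := Complex.norm_le_of_forall_mem_frontier_norm_le (bounded_U t) hinv
      (C := δ⁻¹) ?_ (subset_closure hw)
    · rw [Pi.inv_apply, norm_inv] at key
      have h2 : 0 < ‖sl f.1 t w‖ := norm_pos_iff.mpr (hne w (mem_X_of_U hw))
      exact (inv_le_inv₀ h2 hδ).mp key
    · intro v hv
      have hvS : (v, t) ∈ S := frontier_U t hv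
      rw [Pi.inv_apply, norm_inv, sl_apply _ _ _ (S_sub_X hvS)]
      exact inv_anti₀ hδ (hδS _ hvS)
  -- the contradiction
  have hcont : ContinuousAt f.1 ⟨(z, b), hx⟩ := f.1.continuous.continuousAt
  rw [Metric.continuousAt_iff] at hcont
  obtain ⟨η, hη, hη2⟩ := hcont δ hδ
  have hopen : IsOpen {t : ℝ | z ∈ U t} := by
    show IsOpen {t : ℝ | ‖z‖ ^ 2 + t ^ 2 < 1}
    exact isOpen_lt (by fun_prop) continuous_const
  obtain ⟨η', hη', hη'2⟩ := Metric.isOpen_iff.mp hopen b hz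
  set t := b + min η η' / 2 with ht
  have hmin : 0 < min η η' := lt_min hη hη'
  have hbt : b < t := by rw [ht]; linarith
  have hdist : dist t b = min η η' / 2 := by
    rw [Real.dist_eq, ht, add_sub_cancel_left, abs_of_pos (by linarith)]
  have hzt : z ∈ U t := hη'2 (by
    rw [Metric.mem_ball, hdist]
    have := min_le_right η η'
    linarith)
  have h3 := hη2 (x := ⟨(z, t), mem_X_of_U hzt⟩) (by
    rw [Subtype.dist_eq, Prod.dist_eq, dist_self, hdist]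
    have := min_le_left η η'
    exact max_lt hη (by linarith))
  rw [hxs0, dist_zero_right] at h3
  have h4 := hab t hbt z hzt
  rw [sl_apply _ _ _ (mem_X_of_U hzt)] at h4
  linarith

/-- the coordinate functions -/
noncomputable def cz : A := ⟨⟨fun x => x.1.1, by fun_prop⟩, by
  intro b
  refine differentiableOn_id.congr ?_
  intro z hz
  rw [sl_apply _ _ _ (mem_X_of_U hz)]
  rfl⟩

/-- the real coordinate -/
noncomputable def cb : A := ⟨⟨fun x => (x.1.2 : ℂ), by fun_prop⟩, by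
  intro b
  refine (differentiableOn_const (b : ℂ)).congr ?_
  intro z hz
  rw [sl_apply _ _ _ (mem_X_of_U hz)]
  rfl⟩

/-- the peak function at a point -/
noncomputable def pk (s : ℂ × ℝ) : A :=
  (1 / 2 : ℂ) • (1 + (conj s.1) • cz + (s.2 : ℂ) • cb)

lemma pk_apply (s : ℂ × ℝ) (x : X) :
    (pk s).1 x = (1 + (conj s.1 * x.1.1 + s.2 * x.1.2)) / 2 := by
  have : (pk s).1 x = (1 / 2 : ℂ) * (1 + conj s.1 * x.1.1 + s.2 * x.1.2) := rfl
  rw [this]
  ring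

lemma inner_le (s : ℂ × ℝ) (hs : s ∈ S) (x : X) : ‖conj s.1 * x.1.1 + s.2 * x.1.2‖ ≤ 1 := by
  have hs' : ‖s.1‖ ^ 2 + s.2 ^ 2 = 1 := hs
  have hx : ‖x.1.1‖ ^ 2 + x.1.2 ^ 2 ≤ 1 := x.2
  have h1 : ‖conj s.1 * x.1.1 + s.2 * x.1.2‖ ≤ ‖s.1‖ * ‖x.1.1‖ + |s.2| * |x.1.2| := by
    refine (norm_add_le _ _).trans (le_of_eq ?_)
    rw [norm_mul, norm_mul, RCLike.norm_conj, Complex.norm_real, Complex.norm_real,
      Real.norm_eq_abs, Real.norm_eq_abs]
  have h2 : ‖s.1‖ * ‖x.1.1‖ ≤ (‖s.1‖ ^ 2 + ‖x.1.1‖ ^ 2) / 2 := by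
    nlinarith [sq_nonneg (‖s.1‖ - ‖x.1.1‖)]
  have h3 : |s.2| * |x.1.2| ≤ (s.2 ^ 2 + x.1.2 ^ 2) / 2 := by
    nlinarith [sq_nonneg (|s.2| - |x.1.2|), sq_abs s.2, sq_abs x.1.2]
  linarith

lemma pk_le (s : ℂ × ℝ) (hs : s ∈ S) (x : X) : ‖(pk s).1 x‖ ≤ 1 := by
  rw [pk_apply, norm_div, Complex.norm_ofNat, div_le_one (by norm_num)]
  refine (norm_add_le _ _).trans ?_
  have := inner_le s hs x
  rw [norm_one]
  linarith

lemma pk_lt (s : ℂ × ℝ) (hs : s ∈ S) (x : X) (hne : x.1 ≠ s) : ‖(pk s).1 x‖ < 1 := by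
  rcases lt_or_eq_of_le (pk_le s hs x) with h | h
  · exact h
  exfalso
  apply hne
  have hs' : ‖s.1‖ ^ 2 + s.2 ^ 2 = 1 := hs
  have hx : ‖x.1.1‖ ^ 2 + x.1.2 ^ 2 ≤ 1 := x.2
  set w := conj s.1 * x.1.1 + s.2 * x.1.2 with hw
  have hw1 : ‖w‖ ≤ 1 := inner_le s hs x
  rw [pk_apply, ← hw, norm_div, Complex.norm_ofNat, div_eq_one_iff_eq (by norm_num)] at h
  have h2 : ‖1 + w‖ ^ 2 = 1 + 2 * w.re + ‖w‖ ^ 2 := by
    rw [← Complex.normSq_eq_norm_sq, ← Complex.normSq_eq_norm_sq, Complex.normSq_apply,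
      Complex.normSq_apply]
    simp only [Complex.add_re, Complex.one_re, Complex.add_im, Complex.one_im, zero_add]
    ring
  have h3 : 1 ≤ w.re := by
    rw [h] at h2
    nlinarith [norm_nonneg w]
  have h4 : w.re = s.1.re * x.1.1.re + s.1.im * x.1.1.im + s.2 * x.1.2 := by
    rw [hw]
    simp
  have h5 : ‖s.1‖ ^ 2 = s.1.re ^ 2 + s.1.im ^ 2 := by
    rw [← Complex.normSq_eq_norm_sq, Complex.normSq_apply]; ring
  have h6 : ‖x.1.1‖ ^ 2 = x.1.1.re ^ 2 + x.1.1.im ^ 2 := by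
    rw [← Complex.normSq_eq_norm_sq, Complex.normSq_apply]; ring
  rw [h5] at hs'
  rw [h6] at hx
  have h7 : (x.1.1.re - s.1.re) ^ 2 + (x.1.1.im - s.1.im) ^ 2 + (x.1.2 - s.2) ^ 2 ≤ 0 := by
    nlinarith
  have h8 := sq_nonneg (x.1.1.re - s.1.re)
  have h9 := sq_nonneg (x.1.1.im - s.1.im)
  have h10 := sq_nonneg (x.1.2 - s.2)
  have e1 : x.1.1.re - s.1.re = 0 := by
    apply pow_eq_zero_iff (two_ne_zero) |>.mp
    linarith
  have e2 : x.1.1.im - s.1.im = 0 := by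
    apply pow_eq_zero_iff (two_ne_zero) |>.mp
    linarith
  have e3 : x.1.2 - s.2 = 0 := by
    apply pow_eq_zero_iff (two_ne_zero) |>.mp
    linarith
  apply Prod.ext
  · apply Complex.ext
    · linarith
    · linarith
  · linarith

lemma pk_self (s : X) (hs : (s : ℂ × ℝ) ∈ S) : (pk s.1).1 s = 1 := by
  have hs' : ‖s.1.1‖ ^ 2 + s.1.2 ^ 2 = 1 := hs
  rw [pk_apply]
  have h1 : conj s.1.1 * s.1.1 + (s.1.2 : ℂ) * s.1.2 = 1 := by
    rw [mul_comm, Complex.mul_conj, Complex.normSq_eq_norm_sq]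
    exact_mod_cast (by rw [← hs']; ring : ‖s.1.1‖ ^ 2 + s.1.2 * s.1.2 = 1)
  rw [h1]
  norm_num

/-- non-invertible elements are topological divisors of zero -/
theorem tdz (f : A) (hf : ¬ IsUnit f) (ε : ℝ) (hε : 0 < ε) : ∃ y : A, ‖y‖ = 1 ∧ ‖f * y‖ ≤ ε := by
  obtain ⟨x₀, hx₀⟩ : ∃ x, f.1 x = 0 := by
    by_contra hcon
    push Not at hcon
    exact hf (isUnit_of_ne f hcon)
  obtain ⟨s, hs, hs0⟩ := exists_zero_S f x₀ hx₀
  have hnorm : ∀ n : ℕ, ‖(pk s.1) ^ n‖ = 1 := by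
    intro n
    apply le_antisymm
    · show ‖((pk s.1) ^ n).1‖ ≤ 1
      rw [ContinuousMap.norm_le _ zero_le_one]
      intro x
      have : ((pk s.1) ^ n).1 x = ((pk s.1).1 x) ^ n := rfl
      rw [this, norm_pow]
      exact pow_le_one₀ (norm_nonneg _) (pk_le s.1 hs x)
    · have h1 := ContinuousMap.norm_coe_le_norm ((pk s.1) ^ n).1 s
      have : ((pk s.1) ^ n).1 s = ((pk s.1).1 s) ^ n := rfl
      rw [this, pk_self s hs, one_pow, norm_one] at h1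
      exact h1
  have hVcl : IsClosed {x : X | ε ≤ ‖f.1 x‖} := isClosed_le continuous_const f.1.continuous.norm
  obtain ⟨q, hq0, hq1, hq⟩ : ∃ q : ℝ, 0 ≤ q ∧ q < 1 ∧ ∀ x : X, ε ≤ ‖f.1 x‖ → ‖(pk s.1).1 x‖ ≤ q := by
    by_cases hne : {x : X | ε ≤ ‖f.1 x‖}.Nonempty
    · obtain ⟨v, hv, hmax⟩ := hVcl.isCompact.exists_isMaxOn hne
        ((pk s.1).1.continuous.norm.continuousOn)
      refine ⟨‖(pk s.1).1 v‖, norm_nonneg _, ?_, fun x hx => hmax hx⟩
      apply pk_lt s.1 hs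
      intro h
      have hvs : v = s := Subtype.ext h
      have hv' : ε ≤ ‖f.1 v‖ := hv
      rw [hvs, hs0, norm_zero] at hv'
      linarith
    · rw [Set.not_nonempty_iff_eq_empty] at hne
      refine ⟨0, le_rfl, zero_lt_one, fun x hx => ?_⟩
      have : x ∈ {x : X | ε ≤ ‖f.1 x‖} := hx
      rw [hne] at this
      exact absurd this (Set.notMem_empty x)
  obtain ⟨n, hn⟩ : ∃ n : ℕ, ‖f‖ * q ^ n ≤ ε := by
    have h1 : Tendsto (fun n : ℕ => ‖f‖ * q ^ n) atTop (𝓝 (‖f‖ * 0)) :=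
      (tendsto_pow_atTop_nhds_zero_of_lt_one hq0 hq1).const_mul _
    rw [mul_zero] at h1
    obtain ⟨n, hn⟩ := (h1.eventually_le_const hε).exists
    exact ⟨n, hn⟩
  refine ⟨(pk s.1) ^ n, hnorm n, ?_⟩
  show ‖(f * (pk s.1) ^ n).1‖ ≤ ε
  rw [ContinuousMap.norm_le _ hε.le]
  intro x
  have e : (f * (pk s.1) ^ n).1 x = f.1 x * ((pk s.1).1 x) ^ n := rfl
  rw [e, norm_mul, norm_pow]
  by_cases hx : ε ≤ ‖f.1 x‖
  · calc ‖f.1 x‖ * ‖(pk s.1).1 x‖ ^ n ≤ ‖f‖ * q ^ n := by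
          apply mul_le_mul (ContinuousMap.norm_coe_le_norm f.1 x) _ (by positivity) (norm_nonneg _)
          exact pow_le_pow_left₀ (norm_nonneg _) (hq x hx) n
      _ ≤ ε := hn
  · calc ‖f.1 x‖ * ‖(pk s.1).1 x‖ ^ n ≤ ‖f.1 x‖ * 1 := by
          apply mul_le_mul_of_nonneg_left _ (norm_nonneg _)
          exact pow_le_one₀ (norm_nonneg _) (pk_le s.1 hs x)
      _ ≤ ε := by rw [mul_one]; exact (not_le.mp hx).le

/-- the evaluation at the centre -/
noncomputable def ev0 : A →ₐ[ℂ] ℂ :=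
  (ContinuousMap.evalAlgHom ℂ ℂ (⟨(0, 0), by simp [X]⟩ : X)).comp A.val

lemma ev0_cz : ev0 cz = 0 := rfl

lemma ev0_cb : ev0 cb = 0 := by
  show (((0 : ℝ)) : ℂ) = 0
  exact Complex.ofReal_zero

/-- the kernel of the evaluation at the centre does not consist of joint topological divisors -/
theorem joint (y : A) : ‖y‖ ≤ ‖cz * y‖ + ‖cb * y‖ := by
  show ‖y.1‖ ≤ _
  rw [ContinuousMap.norm_le _ (by positivity)]
  apply max_principle
  intro x hx
  have hx' : ‖x.1.1‖ ^ 2 + x.1.2 ^ 2 = 1 := hx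
  have h1 := ContinuousMap.norm_coe_le_norm (cz * y).1 x
  have h2 := ContinuousMap.norm_coe_le_norm (cb * y).1 x
  have e1 : (cz * y).1 x = x.1.1 * y.1 x := rfl
  have e2 : (cb * y).1 x = (x.1.2 : ℂ) * y.1 x := rfl
  rw [e1, norm_mul] at h1
  rw [e2, norm_mul, Complex.norm_real, Real.norm_eq_abs] at h2
  have h3 : 1 ≤ ‖x.1.1‖ + |x.1.2| := by
    have h4 := norm_nonneg x.1.1
    have h5 := abs_nonneg x.1.2
    have h6 := sq_abs x.1.2
    nlinarith
  have h7 : ‖y.1 x‖ ≤ ‖x.1.1‖ * ‖y.1 x‖ + |x.1.2| * ‖y.1 x‖ := by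
    nlinarith [norm_nonneg (y.1 x)]
  exact h7.trans (add_le_add h1 h2)

/-- restriction to the sphere -/
noncomputable def res : A →ₐ[ℂ] C(S, ℂ) :=
  (ContinuousMap.compRightAlgHom ℂ ℂ
    (⟨fun s : S => (⟨s.1, S_sub_X s.2⟩ : X), by fun_prop⟩ : C(S, X))).comp A.val

lemma res_isometry : Isometry res := by
  apply AddMonoidHomClass.isometry_of_norm
  intro f
  apply le_antisymm
  · rw [ContinuousMap.norm_le _ (norm_nonneg _)]
    intro s
    exact ContinuousMap.norm_coe_le_norm f.1 _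
  · show ‖f.1‖ ≤ _
    rw [ContinuousMap.norm_le _ (norm_nonneg _)]
    apply max_principle
    intro x hx
    exact ContinuousMap.norm_coe_le_norm (res f) (⟨x.1, hx⟩ : S)

lemma ev0_not_ext (ψ : C(S, ℂ) →ₐ[ℂ] ℂ) : ψ.comp res ≠ ev0 := by
  intro h
  have h1 : ψ (res cz) = 0 := by
    have := congrArg (fun g : A →ₐ[ℂ] ℂ => g cz) h
    exact this
  have h2 : ψ (res cb) = 0 := by
    have := congrArg (fun g : A →ₐ[ℂ] ℂ => g cb) h
    simp only [AlgHom.comp_apply] at this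
    rw [this, ev0_cb]
  have h3 : star (res cz) * res cz + res cb * res cb = 1 := by
    apply ContinuousMap.ext
    intro s
    have hs : ‖s.1.1‖ ^ 2 + s.1.2 ^ 2 = 1 := s.2
    show conj s.1.1 * s.1.1 + (s.1.2 : ℂ) * s.1.2 = 1
    rw [mul_comm, Complex.mul_conj, Complex.normSq_eq_norm_sq]
    exact_mod_cast (by rw [← hs]; ring : ‖s.1.1‖ ^ 2 + s.1.2 * s.1.2 = 1)
  have h4 := congrArg ψ h3
  rw [map_add, map_mul, map_mul, h1, h2, mul_zero, mul_zero, add_zero, map_one] at h4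
  exact zero_ne_one h4

end Pool.Agent.W70.BA
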